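import Pool.Agent.TH617.CR.Dim

set_option autoImplicit false
set_option linter.unusedSectionVars false

/-! Job CR-HOPF2 (385, MP_97bde0_lc), helper617. -/

open MeasureTheory Set
open scoped ENNReal

namespace Pool.Agent.TH617.CR

variable {X : Type} [MeasurableSpace X] [StandardBorelSpace X]
variable {s : ℕ → X → X} {E : X → X → Prop} {μ : Measure X} {X' : Set X} {d : X → (ℕ → Bool)}

theorem frac (a b n : ℕ) : (((a + 1) + (b + 1) : ℕ) : ℝ≥0∞) / 2 ^ n =
    a / 2 ^ n + b / 2 ^ n + 2 * (2⁻¹ : ℝ≥0∞) ^ n := by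
  have h : (2⁻¹ : ℝ≥0∞) ^ n = 1 / 2 ^ n := by
    rw [← ENNReal.inv_pow, one_div]
  rw [h, ENNReal.div_eq_inv_mul, ENNReal.div_eq_inv_mul, ENNReal.div_eq_inv_mul,
    ENNReal.div_eq_inv_mul]
  push_cast
  ring

section

variable (c : Ctx s E μ X' d) {U V W S : Set X}

include c

theorem Ctx.add_aux (hV : MeasurableSet V) (hW : MeasurableSet W) (hVW : Disjoint V W)
    (n r q : ℕ) (hr : r ≤ 2 ^ n) (hq : q ≤ 2 ^ n) :
    ∀ᵐ x ∂μ, x ∉ c.T (Cl X' d r n) V → x ∉ c.T (Cl X' d q n) W →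
      r + q ≤ 2 ^ n ∧ x ∉ c.T (Cl X' d (r + q) n) (V ∪ W) := by
  obtain ⟨-, -, h1, -⟩ := c.lo_spec (c.Cl_meas r n) hV
  obtain ⟨-, -, h2, -⟩ := c.lo_spec (c.Cl_meas q n) hW
  set S := (c.T (Cl X' d r n) V)ᶜ ∩ (c.T (Cl X' d q n) W)ᶜ with hS
  have hSm : MeasurableSet S := (c.T_meas _ _).compl.inter (c.T_meas _ _).compl
  have hSi : Inv E S := ((c.T_inv _ _).compl c.hE).inter ((c.T_inv _ _).compl c.hE)
  have h1' : Le E (Cl X' d r n ∩ S) V := h1.mono_left fun x hx => ⟨hx.1, hx.2.1⟩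
  have h2' : Le E (Cl X' d q n ∩ S) W := h2.mono_left fun x hx => ⟨hx.1, hx.2.2⟩
  by_cases hrq : r + q ≤ 2 ^ n
  · have h3 : Le E (Blk X' d n r (r + q) ∩ S) W := by
      have h4 := (c.Blk_le n r 0 q hrq (by omega)).inter hSi
      rw [zero_add] at h4
      exact h4.trans c.hE h2'
    have h5 : Le E (Cl X' d (r + q) n ∩ S) (V ∪ W) := by
      refine (h1'.union h3 ((c.Cl_meas r n).inter hSm) hVW).mono_left ?_
      rintro x ⟨⟨hx1, hx2, hx3⟩, hx4⟩
      by_cases h : val n (d x) < r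
      · exact Or.inl ⟨⟨hx1, hx2, h⟩, hx4⟩
      · exact Or.inr ⟨⟨hx1, by omega, hx3⟩, hx4⟩
    have h6 := c.null_T (c.Cl_meas (r + q) n) (hV.union hW) hSm hSi h5
    rw [measure_eq_zero_iff_ae_notMem] at h6
    filter_upwards [h6] with x hx hx1 hx2
    exact ⟨hrq, fun h => hx ⟨⟨hx1, hx2⟩, h⟩⟩
  · have hnull : μ S = 0 := by
      push Not at hrq
      set r' := 2 ^ n - q with hr'
      have hr'r : r' < r := by omega
      have hr'q : r' + q = 2 ^ n := by omega
      apply c.null_of_cell n r' (by omega) hSm hSi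
      obtain ⟨f, hf, hfE, hi, hm⟩ := h1'
      have hcell : Blk X' d n r' (r' + 1) ∩ S ⊆ Cl X' d r n ∩ S := by
        rintro x ⟨⟨hx1, hx2, hx3⟩, hx4⟩
        exact ⟨⟨hx1, Nat.zero_le _, by omega⟩, hx4⟩
      set W0 := f '' (Blk X' d n r' (r' + 1) ∩ S) with hW0
      have hW0m : MeasurableSet W0 :=
        ((c.Blk_meas n r' (r' + 1)).inter hSm).image_of_measurable_injOn hf (hi.mono hcell)
      have hW0V : W0 ⊆ V := by
        rintro _ ⟨x, hx, rfl⟩
        exact hm (hcell hx)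
      have hXS : Inv E (X' ∩ S) := fun x y hxy hx => ⟨c.hX'E x y hxy hx.1, hSi x y hxy hx.2⟩
      have hW0A : W0 ⊆ X' ∩ S := by
        rintro _ ⟨x, hx, rfl⟩
        exact hXS x _ (hfE x) ⟨hx.1.1, hx.2⟩
      have hLe : Le E (X' ∩ S) ((X' ∩ S) \ W0) := by
        have h3 : Le E (Cl X' d r' n ∩ S) (V \ W0) := by
          refine ⟨f, hf, hfE, hi.mono ?_, ?_⟩
          · rintro x ⟨hx1, hx2⟩
            exact ⟨Cl_mono hr'r.le hx1, hx2⟩
          · rintro x ⟨hx1, hx2⟩
            have hx : x ∈ Cl X' d r n ∩ S := ⟨Cl_mono hr'r.le hx1, hx2⟩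
            refine ⟨hm hx, ?_⟩
            rintro ⟨y, hy, hyx⟩
            have h4 := hi (hcell hy) hx hyx
            rw [h4] at hy
            have h5 := hx1.2.2
            have h6 := hy.1.2.1
            omega
        have h4 : Le E (Blk X' d n r' (r' + q) ∩ S) W := by
          have h4 := (c.Blk_le n r' 0 q hr'q.le (by omega)).inter hSi
          rw [zero_add] at h4
          exact h4.trans c.hE h2'
        have h5 := (h3.union h4 ((c.Cl_meas r' n).inter hSm)
          (hVW.mono_left sdiff_subset)).mono_left (A' := X' ∩ S) (by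
          rintro x ⟨hx1, hx2⟩
          by_cases h : val n (d x) < r'
          · exact Or.inl ⟨⟨hx1, Nat.zero_le _, h⟩, hx2⟩
          · refine Or.inr ⟨⟨hx1, by omega, ?_⟩, hx2⟩
            rw [hr'q]
            exact val_lt _ _)
        refine ((h5.inter hXS).mono_left (A' := X' ∩ S) fun x hx => ⟨hx, hx⟩).mono_right ?_
        rintro x ⟨hx1, hx2⟩
        refine ⟨hx2, fun hx3 => ?_⟩
        rcases hx1 with hx1 | hx1
        · exact hx1.2 hx3
        · exact disjoint_left.1 hVW (hW0V hx3) hx1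
      have h6 := c.null_of_le_diff (c.hX'.inter hSm) hW0A hLe
      refine measure_mono_null ?_ (c.null_Sat hW0m h6)
      intro x hx
      exact (mem_Sat c.toRel).2 ⟨f x, ⟨x, hx, rfl⟩, hfE x⟩
    rw [measure_eq_zero_iff_ae_notMem] at hnull
    filter_upwards [hnull] with x hx hx1 hx2
    exact absurd ⟨hx1, hx2⟩ hx

/-- (D4), superadditivity -/
theorem Ctx.D_add_le (hV : MeasurableSet V) (hW : MeasurableSet W) (hVW : Disjoint V W) :
    ∀ᵐ x ∂μ, c.D V x + c.D W x ≤ c.D (V ∪ W) x := by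
  have h1 : ∀ n r q : ℕ, ∀ᵐ x ∂μ, r ≤ 2 ^ n → q ≤ 2 ^ n →
      x ∉ c.T (Cl X' d r n) V → x ∉ c.T (Cl X' d q n) W →
      r + q ≤ 2 ^ n ∧ x ∉ c.T (Cl X' d (r + q) n) (V ∪ W) := by
    intro n r q
    by_cases hr : r ≤ 2 ^ n
    · by_cases hq : q ≤ 2 ^ n
      · filter_upwards [c.add_aux hV hW hVW n r q hr hq] with x hx _ _
        exact hx
      · exact Filter.Eventually.of_forall fun x _ h => absurd h hq
    · exact Filter.Eventually.of_forall fun x h => absurd h hr
  have h2 := ae_all_iff.2 fun n => ae_all_iff.2 fun r => ae_all_iff.2 fun q => h1 n r q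
  filter_upwards [h2] with x hx
  unfold Ctx.D
  rw [ENNReal.iSup_add_iSup_of_monotone (c.a_mono V x) (c.a_mono W x)]
  apply iSup_le
  intro n
  refine le_trans ?_ (c.a_le_D n (V ∪ W) x)
  obtain ⟨h3, h4⟩ := hx n _ _ (c.K_le n V x) (c.K_le n W x) (c.K_spec n V x) (c.K_spec n W x)
  have h5 := c.le_K h3 h4
  unfold Ctx.a
  rw [← ENNReal.add_div]
  gcongr
  exact_mod_cast h5

/-- (D4), subadditivity -/
theorem Ctx.D_le_add (hV : MeasurableSet V) (hW : MeasurableSet W) :
    ∀ᵐ x ∂μ, c.D (V ∪ W) x ≤ c.D V x + c.D W x := by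
  have h1 : ∀ n r q : ℕ, ∀ᵐ x ∂μ, (r + 1) + (q + 1) ≤ 2 ^ n →
      x ∈ c.T (Cl X' d (r + 1) n) V → x ∈ c.T (Cl X' d (q + 1) n) W →
      c.D (V ∪ W) x ≤ (((r + 1) + (q + 1) : ℕ) : ℝ≥0∞) / 2 ^ n := by
    intro n r q
    by_cases hrq : (r + 1) + (q + 1) ≤ 2 ^ n
    · obtain ⟨-, -, -, h1⟩ := c.lo_spec (c.Cl_meas (r + 1) n) hV
      obtain ⟨-, -, -, h2⟩ := c.lo_spec (c.Cl_meas (q + 1) n) hW
      set S := c.T (Cl X' d (r + 1) n) V ∩ c.T (Cl X' d (q + 1) n) W with hS
      have hSm : MeasurableSet S := (c.T_meas _ _).inter (c.T_meas _ _)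
      have hSi : Inv E S := (c.T_inv _ _).inter (c.T_inv _ _)
      have h3 : Le E (V ∩ S) (Cl X' d (r + 1) n) :=
        (h1.mono_left fun x hx => ⟨hx.1, hx.2.1⟩).mono_right sdiff_subset
      have h4 : Le E (W ∩ S) (Blk X' d n (r + 1) ((r + 1) + (q + 1))) := by
        have h5 : Le E (W ∩ S) (Cl X' d (q + 1) n) :=
          (h2.mono_left fun x hx => ⟨hx.1, hx.2.2⟩).mono_right sdiff_subset
        have h6 := c.Blk_le n 0 (r + 1) (q + 1) (by omega) hrq
        rw [zero_add] at h6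
        exact h5.trans c.hE h6
      have h5 := h3.union h4 (hV.inter hSm) (by
        rw [Set.disjoint_left]
        rintro x ⟨-, -, h3⟩ ⟨-, h4, -⟩
        omega)
      have h6 : Le E ((V ∪ W) ∩ S) (Cl X' d ((r + 1) + (q + 1)) n) := by
        refine (h5.mono_left ?_).mono_right ?_
        · rintro x ⟨hx1 | hx1, hx2⟩
          · exact Or.inl ⟨hx1, hx2⟩
          · exact Or.inr ⟨hx1, hx2⟩
        · rintro x (⟨h1, h2, h3⟩ | ⟨h1, h2, h3⟩)
          · exact ⟨h1, h2, by omega⟩
          · exact ⟨h1, Nat.zero_le _, h3⟩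
      filter_upwards [c.D_le (hV.union hW) hSm hSi h6] with x hx _ hx1 hx2
      exact hx ⟨hx1, hx2⟩
    · exact Filter.Eventually.of_forall fun x h => absurd h hrq
  have h2 := ae_all_iff.2 fun n => ae_all_iff.2 fun r => ae_all_iff.2 fun q => h1 n r q
  filter_upwards [h2] with x hx
  have key : ∀ n : ℕ, c.D (V ∪ W) x ≤ c.D V x + c.D W x + 2 * (2⁻¹ : ℝ≥0∞) ^ n := by
    intro n
    have h3 : c.D (V ∪ W) x ≤
        (((c.K n V x + 1) + (c.K n W x + 1) : ℕ) : ℝ≥0∞) / 2 ^ n := by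
      by_cases h : (c.K n V x + 1) + (c.K n W x + 1) ≤ 2 ^ n
      · exact hx n _ _ h (c.of_K_lt (by omega) (by omega)) (c.of_K_lt (by omega) (by omega))
      · refine (c.D_le_one _ _).trans ?_
        rw [ENNReal.le_div_iff_mul_le (by simp) (by simp), one_mul]
        push Not at h
        exact_mod_cast h.le
    refine h3.trans ?_
    have h4 := c.a_le_D n V x
    have h5 := c.a_le_D n W x
    unfold Ctx.a at h4 h5
    calc (((c.K n V x + 1) + (c.K n W x + 1) : ℕ) : ℝ≥0∞) / 2 ^ n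
        = (c.K n V x : ℝ≥0∞) / 2 ^ n + (c.K n W x : ℝ≥0∞) / 2 ^ n + 2 * (2⁻¹ : ℝ≥0∞) ^ n := by
          exact frac _ _ _
      _ ≤ _ := by gcongr
  have hlim : Filter.Tendsto (fun n : ℕ => c.D V x + c.D W x + 2 * (2⁻¹ : ℝ≥0∞) ^ n)
      Filter.atTop (nhds (c.D V x + c.D W x + 2 * 0)) := by
    apply Filter.Tendsto.add tendsto_const_nhds
    apply ENNReal.Tendsto.const_mul
    · exact ENNReal.tendsto_pow_atTop_nhds_zero_of_lt_one (by simp)
    · right; simp
  rw [mul_zero, add_zero] at hlim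
  exact ge_of_tendsto' hlim key

omit c in
theorem dyadic {σ t : ℝ≥0∞} (h : σ < t) (ht : t ≤ 1) :
    ∃ n r : ℕ, r ≤ 2 ^ n ∧ σ < (r : ℝ≥0∞) / 2 ^ n ∧ (r : ℝ≥0∞) / 2 ^ n < t := by
  have htt : t ≠ ⊤ := ne_top_of_le_ne_top ENNReal.one_ne_top ht
  have hσt : σ ≠ ⊤ := (h.trans_le le_top).ne
  lift σ to NNReal using hσt
  lift t to NNReal using htt
  have h' : (σ : ℝ) < t := by exact_mod_cast h
  have ht' : (t : ℝ) ≤ 1 := by exact_mod_cast ht
  obtain ⟨n, hn⟩ := exists_pow_lt_of_lt_one (show 0 < (t : ℝ) - σ by linarith)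
    (show (1 / 2 : ℝ) < 1 by norm_num)
  have hp : (0:ℝ) < 2 ^ n := by positivity
  have hn' : 1 < ((t : ℝ) - σ) * 2 ^ n := by
    rw [one_div, inv_pow] at hn
    rwa [← inv_lt_iff_one_lt_mul₀ hp] 
  have h1 := Nat.lt_floor_add_one ((σ : ℝ) * 2 ^ n)
  have h2 := Nat.floor_le (show 0 ≤ (σ : ℝ) * 2 ^ n by positivity)
  set r := ⌊(σ : ℝ) * 2 ^ n⌋₊ + 1 with hr
  have h3 : (σ : ℝ) * 2 ^ n < r := by push_cast [hr]; exact h1
  have h4 : (r : ℝ) < t * 2 ^ n := by push_cast [hr]; linarith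
  have h5 : (r : ℝ) < 2 ^ n := by nlinarith
  refine ⟨n, r, ?_, ?_, ?_⟩
  · exact_mod_cast h5.le
  · rw [ENNReal.lt_div_iff_mul_lt (by simp) (by simp)]
    have : (σ : NNReal) * 2 ^ n < (r : NNReal) := by exact_mod_cast h3
    exact_mod_cast this
  · rw [ENNReal.div_lt_iff (by simp) (by simp)]
    have : (r : NNReal) < t * 2 ^ n := by exact_mod_cast h4
    exact_mod_cast this

/-- the iterated greedy matching -/
theorem Ctx.greedy_seq (A : ℕ → Set X) (hA : ∀ k, MeasurableSet (A k)) (B : Set X)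
    (hB : MeasurableSet B) :
    ∃ (M R : ℕ → Set X) (f : ℕ → X → X), R 0 = B ∧ (∀ k, R (k + 1) = R k \ f k '' M k) ∧
      (∀ k, MeasurableSet (R k)) ∧
      ∀ k, MeasurableSet (M k) ∧ M k ⊆ A k ∧ Measurable (f k) ∧ (∀ x, E x (f k x)) ∧
        InjOn (f k) (M k) ∧ MapsTo (f k) (M k) (R k) ∧ MeasurableSet (f k '' M k) ∧
        ∀ x ∈ A k, ∀ y ∈ R k, E x y → x ∈ M k ∨ y ∈ f k '' M k := by
  choose M f h using c.hgreedy
  let R : ℕ → {R : Set X // MeasurableSet R} := fun n => Nat.rec ⟨B, hB⟩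
    (fun k R => ⟨R.1 \ f (A k) R.1 (hA k) R.2 '' M (A k) R.1 (hA k) R.2,
      R.2.diff (h (A k) R.1 (hA k) R.2).2.2.2.2.2.2.1⟩) n
  refine ⟨fun k => M (A k) (R k).1 (hA k) (R k).2, fun k => (R k).1,
    fun k => f (A k) (R k).1 (hA k) (R k).2, rfl, fun k => rfl, fun k => (R k).2, fun k => ?_⟩
  exact h (A k) (R k).1 (hA k) (R k).2

/-- (D5), countable subadditivity -/
theorem Ctx.D_iUnion_le (V : ℕ → Set X) (hV : ∀ i, MeasurableSet (V i)) :
    ∀ᵐ x ∂μ, c.D (⋃ i, V i) x ≤ ∑' i, c.D (V i) x := by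
  have h1 : ∀ n r : ℕ, ∀ᵐ x ∂μ, r ≤ 2 ^ n → ∑' i, c.D (V i) x < (r : ℝ≥0∞) / 2 ^ n →
      c.D (⋃ i, V i) x ≤ (r : ℝ≥0∞) / 2 ^ n := by
    intro n r
    by_cases hr : r ≤ 2 ^ n
    · set S : Set X := {x | ∑' i, c.D (V i) x < (r : ℝ≥0∞) / 2 ^ n} with hS
      have hSm : MeasurableSet S :=
        measurableSet_lt (Measurable.tsum fun i => c.D_meas (V i)) measurable_const
      have hSi : Inv E S := by
        intro x y hxy hx
        simp only [hS, mem_ofPred_eq] at hx ⊢
        simpa only [← c.D_inv _ hxy] using hx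
      obtain ⟨M, R, f, hR0, hRs, hRm, hall⟩ := c.greedy_seq (fun k => V k ∩ S)
        (fun k => (hV k).inter hSm) (Cl X' d r n) (c.Cl_meas r n)
      -- the images
      have himg : ∀ k, Le E (f k '' M k) (V k) := by
        intro k
        obtain ⟨hM, hMA, hf, hfE, hi, hm, hfM, hg⟩ := hall k
        exact (Le.image_le c.toRel hf hfE hM hi).mono_right fun x hx => (hMA hx).1
      have hrec : ∀ k, ∀ᵐ x ∂μ, c.D (Cl X' d r n) x ≤
          c.D (R k) x + ∑ i ∈ Finset.range k, c.D (V i) x := by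
        intro k
        induction k with
        | zero => 
          refine Filter.Eventually.of_forall fun x => ?_
          rw [hR0]; simp
        | succ k ih =>
          obtain ⟨hM, hMA, hf, hfE, hi, hm, hfM, hg⟩ := hall k
          have h2 := c.D_mono hfM (hV k) MeasurableSet.univ Inv.univ
            ((himg k).mono_left inter_subset_left)
          have h3 := c.D_le_add (hRm (k + 1)) hfM
          have h4 : R (k + 1) ∪ f k '' M k = R k := by
            rw [hRs k, sdiff_union_self]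
            exact union_eq_left.2 hm.image_subset
          rw [h4] at h3
          filter_upwards [ih, h2, h3] with x hx1 hx2 hx3
          rw [Finset.sum_range_succ]
          calc c.D (Cl X' d r n) x ≤ c.D (R k) x + ∑ i ∈ Finset.range k, c.D (V i) x := hx1
            _ ≤ (c.D (R (k + 1)) x + c.D (V k) x) + ∑ i ∈ Finset.range k, c.D (V i) x := by
              gcongr
              exact hx3.trans (by gcongr; exact hx2 trivial)
            _ = _ := by ring
      have hfull := c.le_D (c.Cl_meas r n) MeasurableSet.univ Inv.univ hr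
        (Le.of_subset c.hE inter_subset_left)
      -- leftovers
      have hleft : ∀ k, μ (Sat s ((V k ∩ S) \ M k)) = 0 := by
        intro k
        obtain ⟨hM, hMA, hf, hfE, hi, hm, hfM, hg⟩ := hall k
        have hLm : MeasurableSet ((V k ∩ S) \ M k) := ((hV k).inter hSm).diff hM
        have h2 : Le E (R k ∩ Sat s ((V k ∩ S) \ M k)) (V k) := by
          refine (himg k).mono_left ?_
          rintro y ⟨hy, hyS⟩
          obtain ⟨x, hx, hxy⟩ := (mem_Sat c.toRel).1 hyS
          rcases hg x hx.1 y hy (c.hE.symm hxy) with h | h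
          · exact absurd h hx.2
          · exact h
        have h3 := c.D_mono (hRm k) (hV k) (Sat_meas c.toRel hLm) (Sat_inv c.toRel) h2
        rw [measure_eq_zero_iff_ae_notMem]
        filter_upwards [h3, hrec k, hfull] with x hx1 hx2 hx3 hxL
        have hxS : x ∈ S := by
          obtain ⟨y, hy, hxy⟩ := (mem_Sat c.toRel).1 hxL
          exact hSi y x (c.hE.symm hxy) hy.1.2
        have h4 : (r : ℝ≥0∞) / 2 ^ n ≤ ∑ i ∈ Finset.range (k + 1), c.D (V i) x := by
          rw [Finset.sum_range_succ, add_comm]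
          refine (hx3 trivial).trans (hx2.trans ?_)
          gcongr
          exact hx1 hxL
        exact absurd (h4.trans (ENNReal.sum_le_tsum _)) (not_le.2 hxS)
      -- the embedding
      set S' := S \ ⋃ k, Sat s ((V k ∩ S) \ M k) with hS'
      have hS'm : MeasurableSet S' := hSm.diff (MeasurableSet.iUnion fun k =>
        Sat_meas c.toRel (((hV k).inter hSm).diff (hall k).1))
      have hS'i : Inv E S' := by
        refine hSi.inter (Inv.compl c.hE ?_)
        intro x y hxy hx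
        obtain ⟨k, hk⟩ := mem_iUnion.1 hx
        exact mem_iUnion.2 ⟨k, Sat_inv c.toRel x y hxy hk⟩
      have hanti : ∀ i j, i ≤ j → R j ⊆ R i := by
        intro i j hij
        induction hij with
        | refl => exact subset_rfl
        | step h ih => 
          rw [hRs]
          exact sdiff_subset.trans ih
      have hdisj : Pairwise fun i j => Disjoint (f i '' M i) (f j '' M j) := by
        have key : ∀ i j, i < j → Disjoint (f i '' M i) (f j '' M j) := by
          intro i j hij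
          rw [disjoint_right]
          intro x hx hx'
          have h2 : x ∈ R (i + 1) := hanti (i + 1) j hij ((hall j).2.2.2.2.2.1.image_subset hx)
          rw [hRs] at h2
          exact h2.2 hx'
        intro i j hij
        rcases lt_or_gt_of_ne hij with h | h
        · exact key i j h
        · exact (key j i h).symm
      have hLe : Le E (⋃ k, V k ∩ S') (⋃ k, f k '' M k) := by
        apply Le.iUnion _ (fun k => (hV k).inter hS'm) hdisj
        intro k
        obtain ⟨hM, hMA, hf, hfE, hi, hm, hfM, hg⟩ := hall k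
        have hsub : V k ∩ S' ⊆ M k := by
          rintro x ⟨hx1, hx2, hx3⟩
          by_contra hcon
          exact hx3 (mem_iUnion.2 ⟨k, subset_Sat c.toRel ⟨⟨hx1, hx2⟩, hcon⟩⟩)
        exact ⟨f k, hf, hfE, hi.mono hsub, fun x hx => ⟨x, hsub hx, rfl⟩⟩
      have hLe' : Le E ((⋃ k, V k) ∩ S') (Cl X' d r n) := by
        refine (hLe.mono_left ?_).mono_right ?_
        · rw [iUnion_inter]
        · refine iUnion_subset fun k => ?_
          refine (hall k).2.2.2.2.2.1.image_subset.trans ((hanti 0 k (Nat.zero_le _)).trans ?_)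
          rw [hR0]
      have h2 := c.D_le (MeasurableSet.iUnion hV) hS'm hS'i hLe'
      have h3 := measure_iUnion_null hleft
      rw [measure_eq_zero_iff_ae_notMem] at h3
      filter_upwards [h2, h3] with x hx1 hx2 _ hxS
      exact hx1 ⟨hxS, hx2⟩
    · exact Filter.Eventually.of_forall fun x h => absurd h hr
  have h2 := ae_all_iff.2 fun n => ae_all_iff.2 fun r => h1 n r
  filter_upwards [h2] with x hx
  by_contra hcon
  push Not at hcon
  obtain ⟨n, r, hr, h3, h4⟩ := dyadic hcon (c.D_le_one _ _)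
  exact absurd (hx n r hr h3) (not_le.2 h4)

theorem Ctx.null_of_D_zero (hV : MeasurableSet V) : μ (V ∩ {x | c.D V x = 0}) = 0 := by
  set Z : Set X := {x | c.D V x = 0} with hZ
  have hZm : MeasurableSet Z := c.D_meas V (measurableSet_singleton 0)
  have hAm : MeasurableSet (V ∩ Z) := hV.inter hZm
  have h1 : ∀ n : ℕ, Le E (V ∩ Z) (Blk X' d (n + 1) 1 2) := by
    intro n
    obtain ⟨-, -, -, h2⟩ := c.lo_spec (c.Cl_meas 1 (n + 1)) hV
    have h3 : V ∩ Z ⊆ V ∩ c.T (Cl X' d 1 (n + 1)) V := by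
      rintro x ⟨hx1, hx2⟩
      refine ⟨hx1, c.of_K_lt (Nat.one_le_two_pow) ?_⟩
      have h4 : c.a (n + 1) V x ≤ 0 := by
        rw [← show c.D V x = 0 from hx2]
        exact c.a_le_D (n + 1) V x
      have h5 : c.a (n + 1) V x = 0 := le_antisymm h4 zero_le
      unfold Ctx.a at h5
      rw [ENNReal.div_eq_zero_iff] at h5
      have h6 : c.K (n + 1) V x = 0 := by simpa using h5
      omega
    have h4 : Le E (Cl X' d 1 (n + 1)) (Blk X' d (n + 1) 1 2) :=
      c.cell_le (n + 1) 0 1 (by positivity) (by rw [pow_succ]; have := Nat.one_le_two_pow (n := n); omega)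
    exact ((h2.mono_left h3).mono_right sdiff_subset).trans c.hE h4
  have h1' := h1
  choose f hf hfE hi hm using h1
  have hWm : ∀ n, MeasurableSet (f n '' (V ∩ Z)) := fun n =>
    hAm.image_of_measurable_injOn (hf n) (hi n)
  have hdisj : Pairwise fun i j => Disjoint (f i '' (V ∩ Z)) (f j '' (V ∩ Z)) := by
    have key : ∀ i j, i < j → Disjoint (f i '' (V ∩ Z)) (f j '' (V ∩ Z)) := by
      intro i j hij
      rw [disjoint_left]
      intro x hx hx'
      have h2 := (hm i).image_subset hx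
      have h3 := (hm j).image_subset hx'
      obtain ⟨k, rfl⟩ := Nat.exists_eq_add_of_lt hij
      have h4 := val_add (i + 1) (k + 1) 1 (d x)
      have e : i + 1 + (k + 1) = i + k + 1 + 1 := by ring
      rw [e] at h4
      have h5 : val (i + k + 1 + 1) (d x) < 1 * 2 ^ (k + 1) := by
        have := h3.2.2
        have h6 : 2 ≤ 2 ^ (k + 1) := by
          rw [pow_succ]; have := Nat.one_le_two_pow (n := k); omega
        omega
      have h6 := h4.1 h5
      have h7 := h2.2.1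
      omega
    intro i j hij
    rcases lt_or_gt_of_ne hij with h | h
    · exact key i j h
    · exact (key j i h).symm
  have hdisj' : Pairwise fun i j => Disjoint (f (i + 1) '' (V ∩ Z)) (f (j + 1) '' (V ∩ Z)) :=
    fun i j hij => hdisj (fun h => hij (by omega))
  have hstep : ∀ n, Le E (f n '' (V ∩ Z)) (f (n + 1) '' (V ∩ Z)) := by
    intro n
    refine (Le.image_le c.toRel (hf n) (hfE n) hAm (hi n)).trans c.hE ?_
    exact ⟨f (n + 1), hf _, hfE _, hi _, fun x hx => ⟨x, hx, rfl⟩⟩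
  have hU := Le.iUnion hstep hWm hdisj'
  have h2 : μ (f 0 '' (V ∩ Z)) = 0 := by
    refine c.null_of_le_diff (MeasurableSet.iUnion hWm) (subset_iUnion (fun n => f n '' (V ∩ Z)) 0)
      (hU.mono_right ?_)
    refine iUnion_subset fun i => ?_
    intro x hx
    exact ⟨mem_iUnion.2 ⟨i + 1, hx⟩, fun h => disjoint_left.1 (hdisj (Nat.succ_ne_zero i)) hx h⟩
  refine measure_mono_null ?_ (c.null_Sat (hWm 0) h2)
  intro x hx
  exact (mem_Sat c.toRel).2 ⟨f 0 x, ⟨x, hx, rfl⟩, hfE 0 x⟩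

theorem Ctx.D_null (hV : MeasurableSet V) (h : μ V = 0) : ∀ᵐ x ∂μ, c.D V x = 0 := by
  have h1 := c.null_Sat hV h
  rw [measure_eq_zero_iff_ae_notMem] at h1
  have h2 := c.D_le (S := (Sat s V)ᶜ) (r := 0) (n := 0) hV (Sat_meas c.toRel hV).compl
    ((Sat_inv c.toRel).compl c.hE) (by
      refine Le.of_subset c.hE ?_
      rintro x ⟨hx1, hx2⟩
      exact absurd (subset_Sat c.toRel hx1) hx2)
  filter_upwards [h1, h2] with x hx1 hx2
  have := hx2 hx1
  simpa using this

theorem Ctx.D_iUnion (V : ℕ → Set X) (hV : ∀ i, MeasurableSet (V i))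
    (hd : Pairwise fun i j => Disjoint (V i) (V j)) :
    ∀ᵐ x ∂μ, c.D (⋃ i, V i) x = ∑' i, c.D (V i) x := by
  have h1 : ∀ n : ℕ, ∀ᵐ x ∂μ, ∑ i ∈ Finset.range n, c.D (V i) x ≤
      c.D (⋃ i ∈ Finset.range n, V i) x := by
    intro n
    induction n with
    | zero => exact Filter.Eventually.of_forall fun x => by simp
    | succ n ih =>
      have hm : MeasurableSet (⋃ i ∈ Finset.range n, V i) :=
        Finset.measurableSet_biUnion _ fun i _ => hV i
      have hdj : Disjoint (⋃ i ∈ Finset.range n, V i) (V n) := by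
        rw [disjoint_left]
        intro x hx hxn
        simp only [mem_iUnion, Finset.mem_range] at hx
        obtain ⟨i, hi, hx⟩ := hx
        exact disjoint_left.1 (hd hi.ne) hx hxn
      have h2 := c.D_add_le hm (hV n) hdj
      have e : (⋃ i ∈ Finset.range (n + 1), V i) = (⋃ i ∈ Finset.range n, V i) ∪ V n := by
        ext x
        simp only [mem_iUnion, Finset.mem_range, mem_union, exists_prop]
        constructor
        · rintro ⟨i, hi, hx⟩
          rcases Nat.lt_succ_iff_lt_or_eq.1 hi with h | rfl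
          · exact Or.inl ⟨i, h, hx⟩
          · exact Or.inr hx
        · rintro (⟨i, hi, hx⟩ | hx)
          · exact ⟨i, by omega, hx⟩
          · exact ⟨n, by omega, hx⟩
      rw [e]
      filter_upwards [ih, h2] with x hx1 hx2
      rw [Finset.sum_range_succ]
      exact (add_le_add_left hx1 _).trans hx2
  have h2 : ∀ n : ℕ, ∀ᵐ x ∂μ, c.D (⋃ i ∈ Finset.range n, V i) x ≤ c.D (⋃ i, V i) x := by
    intro n
    have hm : MeasurableSet (⋃ i ∈ Finset.range n, V i) :=
      Finset.measurableSet_biUnion _ fun i _ => hV i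
    have := c.D_mono (S := univ) hm (MeasurableSet.iUnion hV) MeasurableSet.univ Inv.univ
      (Le.of_subset c.hE (by
        rintro x ⟨hx, -⟩
        simp only [mem_iUnion, Finset.mem_range] at hx ⊢
        obtain ⟨i, hi, hx⟩ := hx
        exact ⟨i, hx⟩))
    filter_upwards [this] with x hx
    exact hx trivial
  filter_upwards [ae_all_iff.2 h1, ae_all_iff.2 h2, c.D_iUnion_le V hV] with x hx1 hx2 hx3
  refine le_antisymm hx3 ?_
  rw [ENNReal.tsum_eq_iSup_nat]
  exact iSup_le fun n => (hx1 n).trans (hx2 n)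

theorem Ctx.D_univ : ∀ᵐ x ∂μ, c.D univ x = 1 := by
  have := c.le_D (V := univ) (r := 1) (n := 0) MeasurableSet.univ MeasurableSet.univ Inv.univ
    (by simp) (Le.of_subset c.hE (subset_univ _))
  filter_upwards [this] with x hx
  refine le_antisymm (c.D_le_one _ _) ?_
  simpa using hx trivial

theorem Ctx.D_preimage (n : ℕ) (hV : MeasurableSet V) :
    ∀ᵐ x ∂μ, c.D (s n ⁻¹' V) x = c.D V x := by
  have hi : Function.Injective (s n) := fun x y hxy => by
    rw [← c.hinv n x, hxy, c.hinv n y]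
  have hE' : ∀ x, E x (s n x) := fun x => (c.hsE _ _).2 ⟨n, rfl⟩
  have h1 := c.D_mono (S := univ) (c.hs n hV) hV MeasurableSet.univ Inv.univ
    ⟨s n, c.hs n, hE', hi.injOn, fun x hx => hx.1⟩
  have h2 := c.D_mono (S := univ) hV (c.hs n hV) MeasurableSet.univ Inv.univ
    ⟨s n, c.hs n, hE', hi.injOn, fun x hx => by rw [mem_preimage, c.hinv]; exact hx.1⟩
  filter_upwards [h1, h2] with x hx1 hx2
  exact le_antisymm (hx1 trivial) (hx2 trivial)

theorem Ctx.exists_measure [IsProbabilityMeasure μ] :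
    ∃ ν : Measure X, IsProbabilityMeasure ν ∧ (∀ n, ν.map (s n) = ν) ∧ ν ≪ μ ∧ μ ≪ ν := by
  let ν : Measure X := Measure.ofMeasurable (fun V _ => ∫⁻ x, c.D V x ∂μ)
    (by
      have h := c.D_null (V := ∅) MeasurableSet.empty measure_empty
      rw [lintegral_eq_zero_iff (c.D_meas ∅)]
      exact h)
    (by
      intro V hV hd
      rw [lintegral_congr_ae (c.D_iUnion V hV hd)]
      exact lintegral_tsum fun i => (c.D_meas (V i)).aemeasurable)
  have hν : ∀ V, MeasurableSet V → ν V = ∫⁻ x, c.D V x ∂μ := fun V hV =>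
    Measure.ofMeasurable_apply V hV
  refine ⟨ν, ⟨?_⟩, ?_, ?_, ?_⟩
  · rw [hν _ MeasurableSet.univ, lintegral_congr_ae c.D_univ]
    simp
  · intro n
    ext V hV
    rw [Measure.map_apply (c.hs n) hV, hν _ hV, hν _ (c.hs n hV)]
    exact lintegral_congr_ae (c.D_preimage n hV)
  · refine Measure.AbsolutelyContinuous.mk fun V hV h => ?_
    rw [hν _ hV, lintegral_eq_zero_iff (c.D_meas V)]
    exact c.D_null hV h
  · refine Measure.AbsolutelyContinuous.mk fun V hV h => ?_
    rw [hν _ hV, lintegral_eq_zero_iff (c.D_meas V)] at h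
    have h1 := c.null_of_D_zero hV
    rw [measure_eq_zero_iff_ae_notMem] at h1 ⊢
    filter_upwards [h1, h] with x hx1 hx2 hx3
    exact hx1 ⟨hx3, hx2⟩

end

/-- JOB HOPF2. -/
theorem hopf_measure {X : Type} [MeasurableSpace X] [StandardBorelSpace X] (s : ℕ → X → X)
    (hs : ∀ n, Measurable (s n)) (hinv : ∀ n x, s n (s n x) = x) (E : X → X → Prop)
    (hE : Equivalence E) (hsE : ∀ x y, E x y ↔ ∃ n, s n x = y)
    (μ : Measure X) [IsProbabilityMeasure μ]
    (hqi : ∀ n V, MeasurableSet V → μ V = 0 → μ (s n ⁻¹' V) = 0)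
    (hfin : ∀ f : X → X, Measurable f → Function.Injective f → (∀ x, E x (f x)) →
      μ (range f)ᶜ = 0)
    -- the conclusion of job GREEDY:
    (hgreedy : ∀ U V : Set X, MeasurableSet U → MeasurableSet V →
      ∃ (M : Set X) (f : X → X), MeasurableSet M ∧ M ⊆ U ∧ Measurable f ∧ (∀ x, E x (f x)) ∧
      InjOn f M ∧ MapsTo f M V ∧ MeasurableSet (f '' M) ∧
      ∀ x ∈ U, ∀ y ∈ V, E x y → x ∈ M ∨ y ∈ f '' M)
    -- the conclusion of job HOPF1:
    (X' : Set X) (d : X → (ℕ → Bool)) (hX' : MeasurableSet X') (hX'μ : μ X'ᶜ = 0)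
    (hX'E : ∀ x y, E x y → x ∈ X' → y ∈ X') (hd : Measurable d)
    (hdE : ∀ (n : ℕ) (u v : ℕ → Bool), ∃ f : X → X, Measurable f ∧ (∀ x, E x (f x)) ∧
        BijOn f {x | x ∈ X' ∧ ∀ i, i < n → d x i = u i} {x | x ∈ X' ∧ ∀ i, i < n → d x i = v i}) :
    ∃ ν : Measure X, IsProbabilityMeasure ν ∧ (∀ n, ν.map (s n) = ν) ∧ ν ≪ μ ∧ μ ≪ ν := by
  have c : Ctx s E μ X' d :=
    ⟨⟨hs, hinv, hE, hsE⟩, hqi, hfin, hgreedy, hX', hX'μ, hX'E, hd, hdE⟩
  exact c.exists_measure

end Pool.Agent.TH617.CR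

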