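import Mathlib

set_option autoImplicit false
set_option linter.unusedSectionVars false

/-! Tools for the jobs CR-HOPF2 etc. (MP_97bde0_lc, helper722), helper617. -/

open MeasureTheory Set
open scoped ENNReal

namespace Pool.Agent.TH617.CR

variable {X : Type} [MeasurableSpace X]

/-- invariant sets -/
def Inv (E : X → X → Prop) (S : Set X) : Prop := ∀ x y, E x y → x ∈ S → y ∈ S

/-- comparison of sets by injections inside `E` -/
def Le (E : X → X → Prop) (A B : Set X) : Prop :=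
  ∃ f : X → X, Measurable f ∧ (∀ x, E x (f x)) ∧ InjOn f A ∧ MapsTo f A B

/-- saturation -/
def Sat (s : ℕ → X → X) (A : Set X) : Set X := ⋃ n, s n ⁻¹' A

/-- `E` is generated by countably many measurable involutions -/
structure Rel (s : ℕ → X → X) (E : X → X → Prop) : Prop where
  hs : ∀ n, Measurable (s n)
  hinv : ∀ n x, s n (s n x) = x
  hE : Equivalence E
  hsE : ∀ x y, E x y ↔ ∃ n, s n x = y

section le

variable {E : X → X → Prop} {A B C A' B' S S' : Set X}

theorem Inv.inter (h : Inv E S) (h' : Inv E S') : Inv E (S ∩ S') :=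
  fun x y hxy hx => ⟨h x y hxy hx.1, h' x y hxy hx.2⟩

theorem Inv.compl (hE : Equivalence E) (h : Inv E S) : Inv E Sᶜ :=
  fun x y hxy hx hy => hx (h y x (hE.symm hxy) hy)

theorem Inv.univ : Inv E (univ : Set X) := fun _ _ _ _ => trivial

theorem Le.mono_left (h : Le E A B) (hA : A' ⊆ A) : Le E A' B := by
  obtain ⟨f, hf, hE, hi, hm⟩ := h
  exact ⟨f, hf, hE, hi.mono hA, hm.mono_left hA⟩

theorem Le.mono_right (h : Le E A B) (hB : B ⊆ B') : Le E A B' := by
  obtain ⟨f, hf, hE, hi, hm⟩ := h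
  exact ⟨f, hf, hE, hi, hm.mono_right hB⟩

theorem Le.of_subset (hE : Equivalence E) (h : A ⊆ B) : Le E A B :=
  ⟨id, measurable_id, fun x => hE.refl x, injOn_id _, fun _ hx => h hx⟩

theorem Le.trans (hE : Equivalence E) (h : Le E A B) (h' : Le E B C) : Le E A C := by
  obtain ⟨f, hf, hfE, hfi, hfm⟩ := h
  obtain ⟨g, hg, hgE, hgi, hgm⟩ := h'
  exact ⟨g ∘ f, hg.comp hf, fun x => hE.trans (hfE x) (hgE _), hgi.comp hfi hfm, hgm.comp hfm⟩

theorem Le.inter (h : Le E A B) (hS : Inv E S) : Le E (A ∩ S) (B ∩ S) := by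
  obtain ⟨f, hf, hE, hi, hm⟩ := h
  exact ⟨f, hf, hE, hi.mono inter_subset_left, fun x hx => ⟨hm hx.1, hS _ _ (hE x) hx.2⟩⟩

theorem Le.union (h : Le E A B) (h' : Le E A' B') (hA : MeasurableSet A)
    (hB : Disjoint B B') : Le E (A ∪ A') (B ∪ B') := by
  classical
  obtain ⟨f, hf, hE, hi, hm⟩ := h
  obtain ⟨g, hg, hgE, hgi, hgm⟩ := h'
  refine ⟨A.piecewise f g, hf.piecewise hA hg, fun x => ?_, ?_, ?_⟩
  · by_cases hx : x ∈ A
    · rw [piecewise_eq_of_mem _ _ _ hx]; exact hE x
    · rw [piecewise_eq_of_notMem _ _ _ hx]; exact hgE x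
  · intro x hx y hy hxy
    by_cases hxA : x ∈ A
    · rw [piecewise_eq_of_mem _ _ _ hxA] at hxy
      by_cases hyA : y ∈ A
      · rw [piecewise_eq_of_mem _ _ _ hyA] at hxy
        exact hi hxA hyA hxy
      · rw [piecewise_eq_of_notMem _ _ _ hyA] at hxy
        exact absurd (hxy ▸ hm hxA) (disjoint_right.1 hB (hgm (hy.resolve_left hyA)))
    · rw [piecewise_eq_of_notMem _ _ _ hxA] at hxy
      by_cases hyA : y ∈ A
      · rw [piecewise_eq_of_mem _ _ _ hyA] at hxy
        exact absurd (hxy ▸ hm hyA) (disjoint_right.1 hB (hxy ▸ hgm (hx.resolve_left hxA)))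
      · rw [piecewise_eq_of_notMem _ _ _ hyA] at hxy
        exact hgi (hx.resolve_left hxA) (hy.resolve_left hyA) hxy
  · intro x hx
    by_cases hxA : x ∈ A
    · rw [piecewise_eq_of_mem _ _ _ hxA]; exact Or.inl (hm hxA)
    · rw [piecewise_eq_of_notMem _ _ _ hxA]; exact Or.inr (hgm (hx.resolve_left hxA))

theorem measurable_glue {v : X → ℕ} {F : ℕ → X → X} (hv : Measurable v)
    (hF : ∀ n, Measurable (F n)) : Measurable (fun x => F (v x) x) := by
  have h1 : Measurable fun p : X × ℕ => F p.2 p.1 := measurable_from_prod_countable_left fun n => hF n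
  exact h1.comp (measurable_id.prodMk hv)

theorem Le.iUnion {A B : ℕ → Set X} (h : ∀ i, Le E (A i) (B i)) (hA : ∀ i, MeasurableSet (A i))
    (hB : Pairwise (fun i j => Disjoint (B i) (B j))) : Le E (⋃ i, A i) (⋃ i, B i) := by
  classical
  choose f hf hE hi hm using h
  have hp : ∀ x, ∃ n, x ∈ A n ∨ ∀ k, x ∉ A k := by
    intro x
    by_cases hx : ∃ n, x ∈ A n
    · obtain ⟨n, hn⟩ := hx
      exact ⟨n, Or.inl hn⟩
    · push Not at hx
      exact ⟨0, Or.inr hx⟩
  let v : X → ℕ := fun x => Nat.find (hp x)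
  have hvm : Measurable v := by
    apply measurable_find
    intro k
    have : {x | x ∈ A k ∨ ∀ k, x ∉ A k} = A k ∪ ⋂ k, (A k)ᶜ := by ext; simp
    rw [this]
    exact (hA k).union (MeasurableSet.iInter fun k => (hA k).compl)
  have hv : ∀ x ∈ ⋃ i, A i, x ∈ A (v x) := by
    intro x hx
    obtain ⟨n, hn⟩ := mem_iUnion.1 hx
    rcases Nat.find_spec (hp x) with h | h
    · exact h
    · exact absurd hn (h n)
  refine ⟨fun x => f (v x) x, measurable_glue hvm hf, fun x => hE _ x, ?_, ?_⟩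
  · intro x hx y hy hxy
    have h1 := hm _ (hv x hx)
    have h2 := hm _ (hv y hy)
    have hxy' : f (v x) x = f (v y) y := hxy
    have h3 : v x = v y := by
      by_contra hne
      exact disjoint_left.1 (hB hne) h1 (by rw [hxy']; exact h2)
    have h4 := hv y hy
    rw [← h3] at hxy' h4
    exact hi _ (hv x hx) h4 hxy'
  · intro x hx
    exact mem_iUnion.2 ⟨v x, hm _ (hv x hx)⟩

end le

section rel

variable {s : ℕ → X → X} {E : X → X → Prop} {A B : Set X}

theorem Sat_meas (h : Rel s E) (hA : MeasurableSet A) : MeasurableSet (Sat s A) :=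
  MeasurableSet.iUnion fun n => h.hs n hA

theorem mem_Sat (h : Rel s E) {x : X} : x ∈ Sat s A ↔ ∃ y ∈ A, E x y := by
  unfold Sat
  rw [mem_iUnion]
  constructor
  · rintro ⟨n, hn⟩
    exact ⟨_, hn, (h.hsE _ _).2 ⟨n, rfl⟩⟩
  · rintro ⟨y, hy, hxy⟩
    obtain ⟨n, hn⟩ := (h.hsE _ _).1 hxy
    refine ⟨n, ?_⟩
    rw [mem_preimage, hn]
    exact hy

theorem Sat_inv (h : Rel s E) : Inv E (Sat s A) := by
  intro x y hxy hx
  obtain ⟨z, hz, hxz⟩ := (mem_Sat h).1 hx
  exact (mem_Sat h).2 ⟨z, hz, h.hE.trans (h.hE.symm hxy) hxz⟩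

theorem subset_Sat (h : Rel s E) : A ⊆ Sat s A := fun x hx => (mem_Sat h).2 ⟨x, hx, h.hE.refl x⟩

theorem Sat_mono (h : Rel s E) (hAB : A ⊆ B) : Sat s A ⊆ Sat s B := by
  intro x hx
  obtain ⟨z, hz, hxz⟩ := (mem_Sat h).1 hx
  exact (mem_Sat h).2 ⟨z, hAB hz, hxz⟩

/-- selection -/
theorem select (h : Rel s E) (P : ℕ → Set X) (hP : ∀ n, MeasurableSet (P n)) :
    ∃ g : X → X, Measurable g ∧ (∀ x, E x (g x)) ∧ ∀ x ∈ ⋃ n, P n, ∃ n, x ∈ P n ∧ g x = s n x := by
  classical
  have hp : ∀ x, ∃ n, x ∈ P n ∨ ∀ k, x ∉ P k := by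
    intro x
    by_cases hx : ∃ n, x ∈ P n
    · obtain ⟨n, hn⟩ := hx
      exact ⟨n, Or.inl hn⟩
    · push Not at hx
      exact ⟨0, Or.inr hx⟩
  let v : X → ℕ := fun x => Nat.find (hp x)
  have hvm : Measurable v := by
    apply measurable_find
    intro k
    have : {x | x ∈ P k ∨ ∀ k, x ∉ P k} = P k ∪ ⋂ k, (P k)ᶜ := by ext; simp
    rw [this]
    exact (hP k).union (MeasurableSet.iInter fun k => (hP k).compl)
  refine ⟨fun x => s (v x) x, measurable_glue hvm h.hs, fun x => (h.hsE _ _).2 ⟨_, rfl⟩,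
    fun x hx => ⟨v x, ?_, rfl⟩⟩
  obtain ⟨n, hn⟩ := mem_iUnion.1 hx
  rcases Nat.find_spec (hp x) with h | h
  · exact h
  · exact absurd hn (h n)

/-- inverses -/
theorem inverse [StandardBorelSpace X] (h : Rel s E) {f : X → X} (hf : Measurable f)
    (hfE : ∀ x, E x (f x)) (hA : MeasurableSet A) (hi : InjOn f A) :
    ∃ g : X → X, Measurable g ∧ (∀ x, E x (g x)) ∧ ∀ x ∈ A, g (f x) = x := by
  obtain ⟨g, hg, hgE, hgs⟩ := select h (fun n => {y | s n y ∈ A ∧ f (s n y) = y}) (fun n =>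
    ((h.hs n) hA).inter (measurableSet_eq_fun (hf.comp (h.hs n)) measurable_id))
  refine ⟨g, hg, hgE, fun x hx => ?_⟩
  obtain ⟨n, hn⟩ := (h.hsE _ _).1 (h.hE.symm (hfE x))
  obtain ⟨m, hm, hgm⟩ := hgs (f x) (mem_iUnion.2 ⟨n, by
    simp only [mem_ofPred_eq]
    rw [hn]
    exact ⟨hx, rfl⟩⟩)
  rw [hgm]
  exact hi hm.1 hx hm.2

theorem Le.image_le [StandardBorelSpace X] (h : Rel s E) {f : X → X} (hf : Measurable f)
    (hfE : ∀ x, E x (f x)) (hA : MeasurableSet A) (hi : InjOn f A) : Le E (f '' A) A := by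
  obtain ⟨g, hg, hgE, hgf⟩ := inverse h hf hfE hA hi
  refine ⟨g, hg, hgE, ?_, ?_⟩
  · rintro _ ⟨x, hx, rfl⟩ _ ⟨y, hy, rfl⟩ hxy
    rw [hgf x hx, hgf y hy] at hxy
    rw [hxy]
  · rintro _ ⟨x, hx, rfl⟩
    rw [hgf x hx]
    exact hx

end rel

/-! ### binary values -/

/-- binary value of the first `n` digits -/
def val : ℕ → (ℕ → Bool) → ℕ
  | 0, _ => 0
  | n + 1, b => 2 * val n b + (b n).toNat

theorem val_lt (n : ℕ) (b : ℕ → Bool) : val n b < 2 ^ n := by
  induction n with
  | zero => simp [val]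
  | succ n ih =>
    have := Bool.toNat_le (b n)
    simp only [val, pow_succ]
    omega

theorem val_congr (n : ℕ) (b u : ℕ → Bool) (h : ∀ i, i < n → b i = u i) : val n b = val n u := by
  induction n with
  | zero => rfl
  | succ n ih =>
    simp only [val]
    rw [ih fun i hi => h i (by omega), h n (by omega)]

theorem val_inj (n : ℕ) (b u : ℕ → Bool) (h : val n b = val n u) : ∀ i, i < n → b i = u i := by
  induction n with
  | zero => intro i hi; omega
  | succ n ih =>
    simp only [val] at h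
    have h1 := Bool.toNat_le (b n)
    have h2 := Bool.toNat_le (u n)
    have h3 : val n b = val n u := by omega
    have h4 : (b n).toNat = (u n).toNat := by omega
    intro i hi
    rcases Nat.lt_succ_iff_lt_or_eq.1 hi with h5 | rfl
    · exact ih h3 i h5
    · cases hb : b i <;> cases hu : u i <;> simp_all

theorem val_surj (n : ℕ) : ∀ j, j < 2 ^ n → ∃ u, val n u = j := by
  induction n with
  | zero => intro j hj; exact ⟨fun _ => false, by simp only [val]; omega⟩
  | succ n ih =>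
    intro j hj
    rw [pow_succ] at hj
    obtain ⟨u, hu⟩ := ih (j / 2) (by omega)
    refine ⟨Function.update u n (decide (j % 2 = 1)), ?_⟩
    simp only [val]
    rw [val_congr n _ u (fun i hi => Function.update_of_ne (by omega) _ _), hu,
      Function.update_self]
    rcases Nat.mod_two_eq_zero_or_one j with h | h <;> simp [h] <;> omega

theorem val_add (n k r : ℕ) (b : ℕ → Bool) : val (n + k) b < r * 2 ^ k ↔ val n b < r := by
  induction k with
  | zero => simp
  | succ k ih =>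
    rw [← ih, ← add_assoc, pow_succ]
    simp only [val]
    have := Bool.toNat_le (b (n + k))
    have e : r * (2 ^ k * 2) = 2 * (r * 2 ^ k) := by ring
    rw [e]
    omega

theorem measurable_val (n : ℕ) : Measurable (val n) := by
  induction n with
  | zero => exact measurable_const
  | succ n ih =>
    have h0 : Measurable (fun c : Bool => c.toNat) := measurable_of_countable _
    have h1 : Measurable (fun b : ℕ → Bool => (b n).toNat) := h0.comp (measurable_pi_apply n)
    exact (measurable_const.mul ih).add h1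

end Pool.Agent.TH617.CR
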