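import Pool.Agent.TH617.CR.Base

set_option autoImplicit false
set_option linter.unusedSectionVars false

/-! The dimension function for Hopf's theorem (job CR-HOPF2, MP_97bde0_lc), helper617. -/

open MeasureTheory Set
open scoped ENNReal

namespace Pool.Agent.TH617.CR

variable {X : Type} [MeasurableSpace X] [StandardBorelSpace X]

/-- the setting of Hopf's theorem -/
structure Ctx (s : ℕ → X → X) (E : X → X → Prop) (μ : Measure X) (X' : Set X)
    (d : X → (ℕ → Bool)) : Prop extends Rel s E where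
  hqi : ∀ n V, MeasurableSet V → μ V = 0 → μ (s n ⁻¹' V) = 0
  hfin : ∀ f : X → X, Measurable f → Function.Injective f → (∀ x, E x (f x)) → μ (range f)ᶜ = 0
  hgreedy : ∀ U V : Set X, MeasurableSet U → MeasurableSet V →
      ∃ (M : Set X) (f : X → X), MeasurableSet M ∧ M ⊆ U ∧ Measurable f ∧ (∀ x, E x (f x)) ∧
      InjOn f M ∧ MapsTo f M V ∧ MeasurableSet (f '' M) ∧
      ∀ x ∈ U, ∀ y ∈ V, E x y → x ∈ M ∨ y ∈ f '' M
  hX' : MeasurableSet X'
  hX'μ : μ X'ᶜ = 0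
  hX'E : ∀ x y, E x y → x ∈ X' → y ∈ X'
  hd : Measurable d
  hdE : ∀ (n : ℕ) (u v : ℕ → Bool), ∃ f : X → X, Measurable f ∧ (∀ x, E x (f x)) ∧
        BijOn f {x | x ∈ X' ∧ ∀ i, i < n → d x i = u i} {x | x ∈ X' ∧ ∀ i, i < n → d x i = v i}

variable {s : ℕ → X → X} {E : X → X → Prop} {μ : Measure X} {X' : Set X} {d : X → (ℕ → Bool)}

theorem Ctx.null_Sat (c : Ctx s E μ X' d) {A : Set X} (hA : MeasurableSet A) (h : μ A = 0) :
    μ (Sat s A) = 0 := measure_iUnion_null fun n => c.hqi n A hA h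

/-- finiteness -/
theorem Ctx.null_of_le_diff (c : Ctx s E μ X' d) {A L : Set X} (hA : MeasurableSet A)
    (hL : L ⊆ A) (h : Le E A (A \ L)) : μ L = 0 := by
  classical
  obtain ⟨f, hf, hfE, hi, hm⟩ := h
  have h1 := c.hfin (A.piecewise f id) (hf.piecewise hA measurable_id) (by
    intro x y hxy
    by_cases hx : x ∈ A
    · rw [piecewise_eq_of_mem _ _ _ hx] at hxy
      by_cases hy : y ∈ A
      · rw [piecewise_eq_of_mem _ _ _ hy] at hxy
        exact hi hx hy hxy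
      · rw [piecewise_eq_of_notMem _ _ _ hy] at hxy
        exact absurd (show y ∈ A by rw [show y = f x from hxy.symm]; exact (hm hx).1) hy
    · rw [piecewise_eq_of_notMem _ _ _ hx] at hxy
      by_cases hy : y ∈ A
      · rw [piecewise_eq_of_mem _ _ _ hy] at hxy
        exact absurd (show x ∈ A by rw [show x = f y from hxy]; exact (hm hy).1) hx
      · rw [piecewise_eq_of_notMem _ _ _ hy] at hxy
        exact hxy) (by
    intro x
    by_cases hx : x ∈ A
    · rw [piecewise_eq_of_mem _ _ _ hx]; exact hfE x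
    · rw [piecewise_eq_of_notMem _ _ _ hx]; exact c.hE.refl x)
  refine measure_mono_null ?_ h1
  rintro x hx ⟨y, hy⟩
  by_cases hyA : y ∈ A
  · rw [piecewise_eq_of_mem _ _ _ hyA] at hy
    exact (hm hyA).2 (hy ▸ hx)
  · rw [piecewise_eq_of_notMem _ _ _ hyA] at hy
    exact hyA (show y ∈ A by rw [show y = x from hy]; exact hL hx)

/-- comparison -/
theorem Ctx.cmp (c : Ctx s E μ X' d) (U V : Set X) (hU : MeasurableSet U)
    (hV : MeasurableSet V) : ∃ L : Set X, MeasurableSet L ∧ L ⊆ U ∧ Le E (U \ Sat s L) V ∧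
      Le E (V ∩ Sat s L) (U \ L) := by
  obtain ⟨M, f, hM, hMU, hf, hfE, hi, hm, hfM, hg⟩ := c.hgreedy U V hU hV
  refine ⟨U \ M, hU.diff hM, sdiff_subset, ⟨f, hf, hfE, ?_, ?_⟩, ?_⟩
  · refine hi.mono fun x hx => ?_
    by_contra hxM
    exact hx.2 (subset_Sat c.toRel ⟨hx.1, hxM⟩)
  · refine hm.mono_left fun x hx => ?_
    by_contra hxM
    exact hx.2 (subset_Sat c.toRel ⟨hx.1, hxM⟩)
  · have h1 : V ∩ Sat s (U \ M) ⊆ f '' M := by
      rintro y ⟨hy, hyS⟩
      obtain ⟨x, hx, hxy⟩ := (mem_Sat c.toRel).1 hyS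
      rcases hg x hx.1 y hy (c.hE.symm hxy) with h | h
      · exact absurd h hx.2
      · exact h
    refine ((Le.image_le c.toRel hf hfE hM hi).mono_left h1).mono_right ?_
    intro x hx
    exact ⟨hMU hx, fun h => h.2 hx⟩

open Classical in
/-- the leftover of `U` in the comparison of `U` with `V` -/
noncomputable def Ctx.lo (c : Ctx s E μ X' d) (U V : Set X) : Set X :=
  if h : MeasurableSet U ∧ MeasurableSet V then (c.cmp U V h.1 h.2).choose else ∅

/-- the region where `U` does not fit in `V` -/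
noncomputable def Ctx.T (c : Ctx s E μ X' d) (U V : Set X) : Set X := Sat s (c.lo U V)

section

variable (c : Ctx s E μ X' d) {U V W S : Set X}

include c

theorem Ctx.lo_spec (hU : MeasurableSet U) (hV : MeasurableSet V) :
    MeasurableSet (c.lo U V) ∧ c.lo U V ⊆ U ∧ Le E (U \ c.T U V) V ∧
      Le E (V ∩ c.T U V) (U \ c.lo U V) := by
  have h : MeasurableSet U ∧ MeasurableSet V := ⟨hU, hV⟩
  unfold Ctx.T Ctx.lo
  rw [dif_pos h]
  exact (c.cmp U V h.1 h.2).choose_spec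

theorem Ctx.T_meas (U V : Set X) : MeasurableSet (c.T U V) := by
  by_cases h : MeasurableSet U ∧ MeasurableSet V
  · exact Sat_meas c.toRel (c.lo_spec h.1 h.2).1
  · unfold Ctx.T Ctx.lo
    rw [dif_neg h]
    exact Sat_meas c.toRel MeasurableSet.empty

theorem Ctx.T_inv (U V : Set X) : Inv E (c.T U V) := Sat_inv c.toRel

theorem Ctx.T_empty (V : Set X) : c.T ∅ V = ∅ := by
  by_cases h : MeasurableSet (∅ : Set X) ∧ MeasurableSet V
  · have := (c.lo_spec h.1 h.2).2.1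
    unfold Ctx.T
    rw [subset_empty_iff.1 this]
    simp [Sat]
  · unfold Ctx.T Ctx.lo
    rw [dif_neg h]
    simp [Sat]

/-- (D2') -/
theorem Ctx.null_T (hU : MeasurableSet U) (hV : MeasurableSet V) (hS : MeasurableSet S)
    (hSi : Inv E S) (h : Le E (U ∩ S) V) : μ (S ∩ c.T U V) = 0 := by
  obtain ⟨hL, hLU, -, h2⟩ := c.lo_spec hU hV
  set L := c.lo U V with hLdef
  set T := c.T U V with hTdef
  have hTL : T = Sat s L := rfl
  set A := U ∩ (S ∩ T) with hA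
  have hST : Inv E (S ∩ T) := hSi.inter (c.T_inv U V)
  have hSTm : MeasurableSet (S ∩ T) := hS.inter (c.T_meas U V)
  have hLT : L ⊆ T := subset_Sat c.toRel
  have h3 : Le E A ((V ∩ T) ∩ S) := by
    have h4 := h.inter hST
    refine (h4.mono_left ?_).mono_right ?_
    · rintro x ⟨hx1, hx2, hx3⟩
      exact ⟨⟨hx1, hx2⟩, hx2, hx3⟩
    · rintro x ⟨hx1, hx2, hx3⟩
      exact ⟨⟨hx1, hx3⟩, hx2⟩
  have h4 : Le E A (A \ (L ∩ S)) := by
    have h5 := h3.trans c.hE ((h2.inter hST).mono_left (A' := (V ∩ T) ∩ S) (by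
      rintro x ⟨⟨hx1, hx2⟩, hx3⟩
      exact ⟨⟨hx1, hx2⟩, hx3, hx2⟩))
    refine h5.mono_right ?_
    rintro x ⟨⟨hx1, hx2⟩, hx3, hx4⟩
    exact ⟨⟨hx1, hx3, hx4⟩, fun h => hx2 h.1⟩
  have h5 : μ (L ∩ S) = 0 := c.null_of_le_diff (hU.inter hSTm)
    (fun x hx => ⟨hLU hx.1, hx.2, hLT hx.1⟩) h4
  refine measure_mono_null ?_ (c.null_Sat (hL.inter hS) h5)
  rintro x ⟨hxS, hxT⟩
  obtain ⟨y, hy, hxy⟩ := (mem_Sat c.toRel).1 hxT
  exact (mem_Sat c.toRel).2 ⟨y, ⟨hy, hSi x y hxy hxS⟩, hxy⟩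

/-! ### cells -/

/-- the union of the cells number `a ≤ j < b` of level `n` -/
def Blk (X' : Set X) (d : X → (ℕ → Bool)) (n a b : ℕ) : Set X :=
  {x | x ∈ X' ∧ a ≤ val n (d x) ∧ val n (d x) < b}

theorem Ctx.Blk_meas (n a b : ℕ) : MeasurableSet (Blk X' d n a b) := by
  have h1 : Measurable fun x => val n (d x) := (measurable_val n).comp c.hd
  exact c.hX'.inter ((h1 (measurableSet_Ici (a := a))).inter (h1 (measurableSet_Iio (a := b))))

theorem Ctx.cell_le (n i j : ℕ) (hi : i < 2 ^ n) (hj : j < 2 ^ n) :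
    Le E (Blk X' d n i (i + 1)) (Blk X' d n j (j + 1)) := by
  obtain ⟨u, hu⟩ := val_surj n i hi
  obtain ⟨v, hv⟩ := val_surj n j hj
  have key : ∀ (u : ℕ → Bool), Blk X' d n (val n u) (val n u + 1) =
      {x | x ∈ X' ∧ ∀ i, i < n → d x i = u i} := by
    intro u
    ext x
    simp only [Blk, mem_ofPred_eq]
    constructor
    · rintro ⟨h1, h2, h3⟩
      exact ⟨h1, val_inj n _ _ (by omega)⟩
    · rintro ⟨h1, h2⟩
      have := val_congr n _ _ h2
      exact ⟨h1, by omega, by omega⟩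
  obtain ⟨f, hf, hfE, hb⟩ := c.hdE n u v
  rw [← hu, ← hv, key, key]
  exact ⟨f, hf, hfE, hb.injOn, hb.mapsTo⟩

theorem Ctx.Blk_le (n a b k : ℕ) (ha : a + k ≤ 2 ^ n) (hb : b + k ≤ 2 ^ n) :
    Le E (Blk X' d n a (a + k)) (Blk X' d n b (b + k)) := by
  induction k with
  | zero => exact (Le.of_subset c.hE (empty_subset _)).mono_left (by
      rintro x ⟨h1, h2, h3⟩
      simp only [add_zero] at h3
      omega)
  | succ k ih =>
    have h1 := ih (by omega) (by omega)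
    have h2 := c.cell_le n (a + k) (b + k) (by omega) (by omega)
    have h3 := h1.union h2 (c.Blk_meas n a (a + k)) (by
      rw [Set.disjoint_left]
      rintro x ⟨-, -, h3⟩ ⟨-, h4, -⟩
      omega)
    refine (h3.mono_left ?_).mono_right ?_
    · rintro x ⟨h1, h2, h3⟩
      by_cases h : val n (d x) < a + k
      · exact Or.inl ⟨h1, h2, h⟩
      · exact Or.inr ⟨h1, by omega, by omega⟩
    · rintro x (⟨h1, h2, h3⟩ | ⟨h1, h2, h3⟩)
      · exact ⟨h1, h2, by omega⟩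
      · exact ⟨h1, by omega, by omega⟩

/-- a cell is large -/
theorem Ctx.null_of_cell (n j : ℕ) (hj : j < 2 ^ n) (hS : MeasurableSet S) (hSi : Inv E S)
    (h : μ (Blk X' d n j (j + 1) ∩ S) = 0) : μ S = 0 := by
  have h1 := c.null_Sat ((c.Blk_meas n j (j + 1)).inter hS) h
  refine measure_mono_null (t := X'ᶜ ∪ Sat s (Blk X' d n j (j + 1) ∩ S)) ?_
    (measure_union_null c.hX'μ h1)
  intro x hx
  by_cases hxX : x ∈ X'
  · right
    obtain ⟨f, -, hfE, -, hm⟩ := c.cell_le n (val n (d x)) j (val_lt _ _) hj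
    have h2 : f x ∈ Blk X' d n j (j + 1) := hm ⟨hxX, le_rfl, Nat.lt_succ_self _⟩
    exact (mem_Sat c.toRel).2 ⟨f x, ⟨h2, hSi _ _ (hfE x) hx⟩, hfE x⟩
  · exact Or.inl hxX

/-- the first `r` cells of level `n` -/
def Cl (X' : Set X) (d : X → (ℕ → Bool)) (r n : ℕ) : Set X := Blk X' d n 0 r

omit c in
theorem Cl_eq (r n k : ℕ) : Cl X' d (r * 2 ^ k) (n + k) = Cl X' d r n := by
  ext x
  simp only [Cl, Blk, mem_ofPred_eq, val_add]
  simp

omit c in
theorem Cl_eq' (r n k : ℕ) : Cl X' d (r * 2 ^ k) (k + n) = Cl X' d r n := by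
  rw [add_comm]; exact Cl_eq r n k

omit c in
theorem Cl_mono {r r' n : ℕ} (h : r ≤ r') : Cl X' d r n ⊆ Cl X' d r' n :=
  fun _ hx => ⟨hx.1, hx.2.1, hx.2.2.trans_le h⟩

omit c in
theorem Cl_full {r n : ℕ} (h : 2 ^ n ≤ r) : Cl X' d r n = X' := by
  ext x
  simp only [Cl, Blk, mem_ofPred_eq]
  exact ⟨fun h => h.1, fun hx => ⟨hx, Nat.zero_le _, (val_lt _ _).trans_le h⟩⟩

omit c in
theorem Cl_zero (n : ℕ) : Cl X' d 0 n = ∅ := by
  ext x
  simp [Cl, Blk]

theorem Ctx.Cl_meas (r n : ℕ) : MeasurableSet (Cl X' d r n) := c.Blk_meas n 0 r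

/-- (D1') -/
theorem Ctx.null_compl_T (hV : MeasurableSet V) (hS : MeasurableSet S) (hSi : Inv E S)
    {r n q m : ℕ} (h : Le E (V ∩ S) (Cl X' d r n)) (hq : q ≤ 2 ^ m)
    (hlt : r * 2 ^ m < q * 2 ^ n) : μ (S \ c.T (Cl X' d q m) V) = 0 := by
  obtain ⟨-, -, h1, -⟩ := c.lo_spec (c.Cl_meas q m) hV
  set T := c.T (Cl X' d q m) V with hT
  set S' := S \ T with hS'
  have hS'i : Inv E S' := by
    have := hSi.inter ((c.T_inv (Cl X' d q m) V).compl c.hE)
    exact this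
  have hS'm : MeasurableSet S' := hS.diff (c.T_meas _ _)
  -- common level
  have h2 : Le E (Cl X' d q m ∩ S') (Cl X' d r n) := by
    have h3 : Le E (Cl X' d q m ∩ S') (V ∩ S) := by
      refine ((h1.inter hS'i).mono_left ?_).mono_right ?_
      · rintro x ⟨hx1, hx2⟩
        exact ⟨⟨hx1, hx2.2⟩, hx2⟩
      · rintro x ⟨hx1, hx2⟩
        exact ⟨hx1, hx2.1⟩
    exact h3.trans c.hE h
  have e1 : Cl X' d q m = Cl X' d (q * 2 ^ n) (m + n) := (Cl_eq q m n).symm
  have e2 : Cl X' d r n = Cl X' d (r * 2 ^ m) (m + n) := (Cl_eq' r n m).symm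
  set j := r * 2 ^ m with hj
  have hjlt : j < 2 ^ (m + n) := by
    have : q * 2 ^ n ≤ 2 ^ (m + n) := by
      rw [pow_add]
      exact Nat.mul_le_mul_right _ hq
    omega
  apply c.null_of_cell (m + n) j hjlt hS'm hS'i
  apply c.null_of_le_diff (A := Cl X' d (q * 2 ^ n) (m + n) ∩ S')
    ((c.Cl_meas _ _).inter hS'm)
  · rintro x ⟨⟨hx1, hx2, hx3⟩, hx4⟩
    exact ⟨⟨hx1, Nat.zero_le _, by omega⟩, hx4⟩
  · rw [← e1]
    refine (((h2.inter hS'i)).mono_left ?_).mono_right ?_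
    · rintro x ⟨hx1, hx2⟩
      exact ⟨⟨hx1, hx2⟩, hx2⟩
    · rintro x ⟨hx1, hx2⟩
      rw [e2] at hx1
      refine ⟨⟨?_, hx2⟩, ?_⟩
      · rw [e1]
        exact Cl_mono hlt.le hx1
      · rintro ⟨⟨-, h3, -⟩, -⟩
        have := hx1.2.2
        omega

/-! ### the dimension function -/

open Classical in
/-- the number of cells of level `n` that fit in `V` -/
noncomputable def Ctx.K (c : Ctx s E μ X' d) (n : ℕ) (V : Set X) (x : X) : ℕ :=
  Nat.findGreatest (fun r => x ∉ c.T (Cl X' d r n) V) (2 ^ n)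

theorem Ctx.K_le (n : ℕ) (V : Set X) (x : X) : c.K n V x ≤ 2 ^ n := by
  classical exact Nat.findGreatest_le _

theorem Ctx.K_spec (n : ℕ) (V : Set X) (x : X) : x ∉ c.T (Cl X' d (c.K n V x) n) V := by
  classical
  have h0 : x ∉ c.T (Cl X' d 0 n) V := by rw [Cl_zero, c.T_empty]; simp
  exact Nat.findGreatest_spec (P := fun r => x ∉ c.T (Cl X' d r n) V) (Nat.zero_le _) h0

theorem Ctx.le_K {n r : ℕ} {V : Set X} {x : X} (hr : r ≤ 2 ^ n)
    (h : x ∉ c.T (Cl X' d r n) V) : r ≤ c.K n V x := by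
  classical
  exact Nat.le_findGreatest hr h

theorem Ctx.of_K_lt {n r : ℕ} {V : Set X} {x : X} (hr : r ≤ 2 ^ n) (h : c.K n V x < r) :
    x ∈ c.T (Cl X' d r n) V := by
  by_contra hcon
  exact absurd (c.le_K hr hcon) (by omega)

theorem Ctx.K_meas (n : ℕ) (V : Set X) : Measurable (c.K n V) := by
  classical
  apply measurable_findGreatest
  intro k _
  exact (c.T_meas _ _).compl

theorem Ctx.K_inv (n : ℕ) (V : Set X) {x y : X} (h : E x y) : c.K n V x = c.K n V y := by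
  unfold Ctx.K
  congr 1
  funext r
  apply propext
  exact ⟨fun h1 h2 => h1 (c.T_inv _ _ y x (c.hE.symm h) h2),
    fun h1 h2 => h1 (c.T_inv _ _ x y h h2)⟩

theorem Ctx.K_mono_step (n : ℕ) (V : Set X) (x : X) : c.K n V x * 2 ≤ c.K (n + 1) V x := by
  apply c.le_K
  · rw [pow_succ]
    exact Nat.mul_le_mul_right _ (c.K_le _ _ _)
  · have := Cl_eq (X' := X') (d := d) (c.K n V x) n 1
    rw [pow_one] at this
    rw [this]
    exact c.K_spec n V x

/-- the approximations of the dimension -/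
noncomputable def Ctx.a (c : Ctx s E μ X' d) (n : ℕ) (V : Set X) (x : X) : ℝ≥0∞ :=
  (c.K n V x : ℝ≥0∞) / 2 ^ n

/-- the dimension -/
noncomputable def Ctx.D (c : Ctx s E μ X' d) (V : Set X) (x : X) : ℝ≥0∞ := ⨆ n, c.a n V x

theorem Ctx.a_mono (V : Set X) (x : X) : Monotone (fun n => c.a n V x) := by
  apply monotone_nat_of_le_succ
  intro n
  unfold Ctx.a
  rw [ENNReal.div_le_iff (by simp) (by simp)]
  have h1 : (c.K n V x : ℝ≥0∞) * 2 ≤ c.K (n + 1) V x := by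
    exact_mod_cast c.K_mono_step n V x
  rw [pow_succ, mul_comm ((2 : ℝ≥0∞) ^ n) 2, ENNReal.div_eq_inv_mul,
    ENNReal.mul_inv (by simp) (by simp), mul_comm, ← mul_assoc]
  have e : (2 : ℝ≥0∞) ^ n * (2⁻¹ * (2 ^ n)⁻¹) = 2⁻¹ := by
    rw [mul_comm (2⁻¹ : ℝ≥0∞), ← mul_assoc, ENNReal.mul_inv_cancel (by simp) (by simp), one_mul]
  rw [e]
  calc (c.K n V x : ℝ≥0∞) = 2⁻¹ * ((c.K n V x : ℝ≥0∞) * 2) := by
        rw [mul_comm, mul_assoc, ENNReal.mul_inv_cancel (by simp) (by simp), mul_one]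
    _ ≤ _ := by gcongr

theorem Ctx.D_meas (V : Set X) : Measurable (c.D V) := by
  apply Measurable.iSup
  intro n
  unfold Ctx.a
  have h1 : Measurable (fun x => (c.K n V x : ℝ≥0∞)) :=
    (measurable_of_countable (fun k : ℕ => (k : ℝ≥0∞))).comp (c.K_meas n V)
  exact h1.div_const _

theorem Ctx.D_inv (V : Set X) {x y : X} (h : E x y) : c.D V x = c.D V y := by
  unfold Ctx.D Ctx.a
  simp only [c.K_inv _ _ h]

theorem Ctx.a_le_one (n : ℕ) (V : Set X) (x : X) : c.a n V x ≤ 1 := by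
  unfold Ctx.a
  rw [ENNReal.div_le_iff (by simp) (by simp), one_mul]
  exact_mod_cast c.K_le n V x

theorem Ctx.D_le_one (V : Set X) (x : X) : c.D V x ≤ 1 := iSup_le fun n => c.a_le_one n V x

theorem Ctx.a_le_D (n : ℕ) (V : Set X) (x : X) : c.a n V x ≤ c.D V x :=
  le_iSup (fun n => c.a n V x) n

/-- (D1) -/
theorem Ctx.D_le (hV : MeasurableSet V) (hS : MeasurableSet S) (hSi : Inv E S)
    {r n : ℕ} (h : Le E (V ∩ S) (Cl X' d r n)) :
    ∀ᵐ x ∂μ, x ∈ S → c.D V x ≤ (r : ℝ≥0∞) / 2 ^ n := by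
  have h1 : ∀ q m : ℕ, ∀ᵐ x ∂μ, q ≤ 2 ^ m → r * 2 ^ m < q * 2 ^ n → x ∈ S →
      x ∈ c.T (Cl X' d q m) V := by
    intro q m
    by_cases hq : q ≤ 2 ^ m
    · by_cases hlt : r * 2 ^ m < q * 2 ^ n
      · have := c.null_compl_T hV hS hSi h hq hlt
        rw [measure_eq_zero_iff_ae_notMem] at this
        filter_upwards [this] with x hx _ _ hxS
        by_contra hcon
        exact hx ⟨hxS, hcon⟩
      · exact Filter.Eventually.of_forall fun x _ h => absurd h hlt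
    · exact Filter.Eventually.of_forall fun x h => absurd h hq
  have h2 := ae_all_iff.2 fun q => ae_all_iff.2 fun m => h1 q m
  filter_upwards [h2] with x hx hxS
  apply iSup_le
  intro m
  unfold Ctx.a
  by_contra hcon
  push Not at hcon
  have h3 : r * 2 ^ m < c.K m V x * 2 ^ n := by
    by_contra h4
    push Not at h4
    apply absurd hcon
    push Not
    rw [ENNReal.div_le_iff (by simp) (by simp), ENNReal.div_eq_inv_mul, mul_assoc,
      ← ENNReal.div_eq_inv_mul, ENNReal.le_div_iff_mul_le (by simp) (by simp)]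
    exact_mod_cast h4
  exact c.K_spec m V x (hx _ _ (c.K_le m V x) h3 hxS)

/-- (D2) -/
theorem Ctx.le_D (hV : MeasurableSet V) (hS : MeasurableSet S) (hSi : Inv E S)
    {r n : ℕ} (hr : r ≤ 2 ^ n) (h : Le E (Cl X' d r n ∩ S) V) :
    ∀ᵐ x ∂μ, x ∈ S → (r : ℝ≥0∞) / 2 ^ n ≤ c.D V x := by
  have h1 := c.null_T (c.Cl_meas r n) hV hS hSi h
  rw [measure_eq_zero_iff_ae_notMem] at h1
  filter_upwards [h1] with x hx hxS
  have h2 : x ∉ c.T (Cl X' d r n) V := fun h => hx ⟨hxS, h⟩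
  have h3 := c.le_K hr h2
  refine le_trans ?_ (c.a_le_D n V x)
  unfold Ctx.a
  gcongr

/-- (D3) -/
theorem Ctx.D_mono (hV : MeasurableSet V) (hW : MeasurableSet W) (hS : MeasurableSet S)
    (hSi : Inv E S) (h : Le E (V ∩ S) W) : ∀ᵐ x ∂μ, x ∈ S → c.D V x ≤ c.D W x := by
  have h1 : ∀ r n : ℕ, ∀ᵐ x ∂μ, x ∈ S → x ∉ c.T (Cl X' d r n) V → x ∉ c.T (Cl X' d r n) W := by
    intro r n
    obtain ⟨-, -, h2, -⟩ := c.lo_spec (c.Cl_meas r n) hV
    have hS'm : MeasurableSet (S \ c.T (Cl X' d r n) V) := hS.diff (c.T_meas _ _)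
    have hS'i : Inv E (S \ c.T (Cl X' d r n) V) := hSi.inter ((c.T_inv _ _).compl c.hE)
    have h3 : Le E (Cl X' d r n ∩ (S \ c.T (Cl X' d r n) V)) W := by
      refine Le.trans c.hE (B := V ∩ S) ?_ h
      refine ((h2.inter hS'i).mono_left ?_).mono_right ?_
      · rintro x ⟨hx1, hx2⟩
        exact ⟨⟨hx1, hx2.2⟩, hx2⟩
      · rintro x ⟨hx1, hx2⟩
        exact ⟨hx1, hx2.1⟩
    have h4 := c.null_T (c.Cl_meas r n) hW hS'm hS'i h3
    rw [measure_eq_zero_iff_ae_notMem] at h4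
    filter_upwards [h4] with x hx hxS hxT hxW
    exact hx ⟨⟨hxS, hxT⟩, hxW⟩
  have h2 := ae_all_iff.2 fun r => ae_all_iff.2 fun n => h1 r n
  filter_upwards [h2] with x hx hxS
  apply iSup_le
  intro n
  refine le_trans ?_ (c.a_le_D n W x)
  unfold Ctx.a
  have := c.le_K (c.K_le n V x) (hx _ n hxS (c.K_spec n V x))
  gcongr

end

end Pool.Agent.TH617.CR
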